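import Mathlib

/-!
# P2 : ODE with linear growth in a Banach space (MP_114a94_gt)
-/

set_option autoImplicit false

open scoped Topology NNReal
open Set Filter

namespace Pool.Agent.GR

theorem ode_bounded {X : Type*} [NormedAddCommGroup X] [NormedSpace ℝ X] [CompleteSpace X]
    (W : X → X) (K L : ℝ≥0) (hK : LipschitzWith K W) (hL : ∀ U, ‖W U‖ ≤ L)
    (U₀ : X) {T : ℝ} (hT : 0 ≤ T) :
    ∃ U : ℝ → X, U 0 = U₀ ∧ ∀ t ∈ Icc 0 T, HasDerivWithinAt U (W (U t)) (Icc 0 T) t := by
  have hpl : IsPicardLindelof (fun _ : ℝ => W) (tmin := 0) (tmax := T) ⟨0, left_mem_Icc.2 hT⟩ U₀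
      (L * ⟨T, hT⟩) 0 L K := by
    refine IsPicardLindelof.of_time_independent (fun x _ => hL x) hK.lipschitzOnWith ?_
    simp [hT]
    exact le_rfl
  obtain ⟨α, h0, hα⟩ := hpl.exists_eq_forall_mem_Icc_hasDerivWithinAt
    (Metric.mem_closedBall_self (by simp))
  exact ⟨α, h0, hα⟩

theorem ode_global {X : Type*} [NormedAddCommGroup X] [NormedSpace ℝ X] [CompleteSpace X]
    (V : X → X) (C : ℝ) (hC : ∀ U, ‖V U‖ ≤ C * (1 + ‖U‖))
    (hL : ∀ R : ℝ, ∃ K : ℝ≥0, LipschitzOnWith K V (Metric.closedBall 0 R))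
    (U₀ : X) {T : ℝ} (hT : 0 ≤ T) :
    ∃ U : ℝ → X, U 0 = U₀ ∧ ∀ t ∈ Icc 0 T, HasDerivWithinAt U (V (U t)) (Icc 0 T) t := by
  have hC0 : 0 ≤ C := by
    have := (norm_nonneg _).trans (hC 0)
    simpa using this
  set R : ℝ := gronwallBound ‖U₀‖ C C T with hR
  have hR0 : 0 ≤ R := by
    have h1 := gronwallBound_mono (norm_nonneg U₀) hC0 hC0 hT
    rw [gronwallBound_x0] at h1
    exact (norm_nonneg _).trans h1
  obtain ⟨K, hK⟩ := hL (R + 1)
  -- the cut-off
  set χ : X → ℝ := fun U => max (min (R + 1 - ‖U‖) 1) 0 with hχ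
  have hχ0 : ∀ U, 0 ≤ χ U := fun U => le_max_right _ _
  have hχ1 : ∀ U, χ U ≤ 1 := fun U => max_le (min_le_right _ _) zero_le_one
  have hχin : ∀ U, ‖U‖ ≤ R → χ U = 1 := by
    intro U hU
    simp only [hχ]
    rw [min_eq_right (by linarith), max_eq_left zero_le_one]
  have hχout : ∀ U, R + 1 ≤ ‖U‖ → χ U = 0 := by
    intro U hU
    simp only [hχ]
    rw [max_eq_right]
    exact (min_le_left _ _).trans (by linarith)
  have hχL : ∀ U U', |χ U - χ U'| ≤ ‖U - U'‖ := by
    intro U U'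
    simp only [hχ]
    refine (abs_max_sub_max_le_abs _ _ _).trans ?_
    refine (abs_min_sub_min_le_max _ _ _ _).trans ?_
    rw [sub_self, abs_zero, max_eq_left (abs_nonneg _)]
    have h1 : R + 1 - ‖U‖ - (R + 1 - ‖U'‖) = -(‖U‖ - ‖U'‖) := by ring
    rw [h1, abs_neg]
    exact abs_norm_sub_norm_le _ _
  -- the truncated vector field
  set W : X → X := fun U => χ U • V U with hW
  set L : ℝ≥0 := ⟨C * (1 + (R + 1)), by positivity⟩ with hLdef
  have hVL : ∀ U, ‖U‖ ≤ R + 1 → ‖V U‖ ≤ L := by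
    intro U hU
    refine (hC U).trans ?_
    show C * (1 + ‖U‖) ≤ C * (1 + (R + 1))
    gcongr
  have hWV : ∀ U, ‖W U‖ ≤ ‖V U‖ := by
    intro U
    simp only [hW]
    rw [norm_smul, Real.norm_of_nonneg (hχ0 U)]
    exact mul_le_of_le_one_left (norm_nonneg _) (hχ1 U)
  have hWL : ∀ U, ‖W U‖ ≤ L := by
    intro U
    rcases le_total ‖U‖ (R + 1) with h | h
    · exact (hWV U).trans (hVL U h)
    · simp only [hW]
      rw [hχout U h, zero_smul, norm_zero]
      exact L.2
  have key : ∀ U U' : X, ‖U‖ ≤ R + 1 → ‖W U - W U'‖ ≤ (L + K : ℝ≥0) * ‖U - U'‖ := by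
    intro U U' hU
    rcases le_total ‖U'‖ (R + 1) with h | h
    · have e : W U - W U' = (χ U - χ U') • V U + χ U' • (V U - V U') := by
        simp only [hW]
        module
      rw [e]
      refine (norm_add_le _ _).trans ?_
      rw [norm_smul, norm_smul, Real.norm_eq_abs, Real.norm_of_nonneg (hχ0 U')]
      have h1 : |χ U - χ U'| * ‖V U‖ ≤ ‖U - U'‖ * L :=
        mul_le_mul (hχL U U') (hVL U hU) (norm_nonneg _) (norm_nonneg _)
      have h2 : ‖V U - V U'‖ ≤ K * ‖U - U'‖ := by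
        rw [← dist_eq_norm, ← dist_eq_norm]
        exact hK.dist_le_mul _ (by simpa using hU) _ (by simpa using h)
      have h3 : χ U' * ‖V U - V U'‖ ≤ K * ‖U - U'‖ :=
        (mul_le_of_le_one_left (norm_nonneg _) (hχ1 U')).trans h2
      push_cast
      linarith
    · have e : W U - W U' = (χ U - χ U') • V U := by
        simp only [hW]
        rw [hχout U' h]
        module
      rw [e, norm_smul, Real.norm_eq_abs]
      have h1 : |χ U - χ U'| * ‖V U‖ ≤ ‖U - U'‖ * L :=
        mul_le_mul (hχL U U') (hVL U hU) (norm_nonneg _) (norm_nonneg _)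
      have h3 : 0 ≤ (K : ℝ) * ‖U - U'‖ := by positivity
      push_cast
      linarith
  have hWLip : LipschitzWith (L + K) W := by
    refine LipschitzWith.of_dist_le_mul fun U U' => ?_
    rw [dist_eq_norm, dist_eq_norm]
    rcases le_total ‖U‖ (R + 1) with h | h
    · exact key U U' h
    · rcases le_total ‖U'‖ (R + 1) with h' | h'
      · rw [norm_sub_rev, norm_sub_rev U]
        exact key U' U h'
      · simp only [hW]
        rw [hχout U h, hχout U' h', zero_smul, zero_smul, sub_self, norm_zero]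
        positivity
  obtain ⟨U, hU0, hU⟩ := ode_bounded W (L + K) L hWLip hWL U₀ hT
  refine ⟨U, hU0, fun t ht => ?_⟩
  have hcont : ContinuousOn U (Icc 0 T) := fun s hs => (hU s hs).continuousWithinAt
  have hbound := norm_le_gronwallBound_of_norm_deriv_right_le (f := U) (f' := fun s => W (U s))
    (δ := ‖U₀‖) (K := C) (ε := C) (a := 0) (b := T) hcont
    (fun s hs => ((hU s ⟨hs.1, hs.2.le⟩).mono_of_mem_nhdsWithin
      (Icc_mem_nhdsGE_of_mem hs)))
    (by rw [hU0])
    (fun s _ => (hWV _).trans ((hC _).trans (by linarith)))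
  have h1 : ‖U t‖ ≤ R := by
    refine (hbound t ht).trans ?_
    rw [sub_zero]
    exact gronwallBound_mono (norm_nonneg U₀) hC0 hC0 ht.2
  have h2 : W (U t) = V (U t) := by
    simp only [hW]
    rw [hχin _ h1, one_smul]
  rw [← h2]
  exact hU t ht

end Pool.Agent.GR
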