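import Pool.Agent.Helper40.GR.PeriodInt

/-!
# P1' : mollifiers and the period integral (MP_114a94_gt)
-/

set_option autoImplicit false

open scoped ContDiff Topology NNReal Pointwise
open Set Filter MeasureTheory

namespace Pool.Agent.GR

open Pool.Agent.Helper25.GrimReaper

variable {n : ℕ}

/-- The integrand of a mollification is integrable. -/
lemma J_integrable {ε : ℝ} (m : Mollifier n ε) {f : E n → ℝ} (hf : Continuous f) (x : E n) :
    Integrable (fun y => m.φ y * f (x - y)) := by
  refine Continuous.integrable_of_hasCompactSupport ?_ ?_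
  · exact m.smooth.continuous.mul (hf.comp (continuous_const.sub continuous_id))
  · refine HasCompactSupport.intro (isCompact_closedBall (0 : E n) ε) fun y hy => ?_
    rw [Metric.mem_closedBall, dist_zero_right, not_le] at hy
    rw [m.supp y hy.le, zero_mul]

lemma phi_integrable {ε : ℝ} (m : Mollifier n ε) : Integrable m.φ := by
  have := J_integrable m (f := fun _ => (1 : ℝ)) continuous_const 0
  simpa using this

lemma J_one {ε : ℝ} (m : Mollifier n ε) (x : E n) : m.J (fun _ => 1) x = 1 := by
  unfold Mollifier.J
  simpa using m.int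

/-- swap of integrals -/
lemma swap_int {ε : ℝ} (m : Mollifier n ε) {P : ℝ} {G : E n → E n → ℝ}
    (hG : Continuous (fun p : E n × E n => G p.1 p.2)) :
    Iper P (fun x => ∫ y, m.φ y * G x y) = ∫ y, m.φ y * Iper P (fun x => G x y) := by
  have h1 : Integrable (Function.uncurry fun (x y : E n) => m.φ y * G x y)
      ((volume.restrict (Cell n P)).prod volume) := by
    have h2 : (volume.restrict (Cell n P)).prod (volume : Measure (E n)) =
        (volume.prod volume).restrict (Cell n P ×ˢ univ) := by
      rw [← Measure.prod_restrict, Measure.restrict_univ]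
    rw [h2]
    have hcont : Continuous (Function.uncurry fun (x y : E n) => m.φ y * G x y) :=
      (m.smooth.continuous.comp continuous_snd).mul hG
    have hK : IsCompact (CCell n P ×ˢ Metric.closedBall (0 : E n) ε) :=
      (isCompact_ccell n P).prod (isCompact_closedBall 0 ε)
    have h3 : IntegrableOn (Function.uncurry fun (x y : E n) => m.φ y * G x y)
        (CCell n P ×ˢ Metric.closedBall (0 : E n) ε) (volume.prod volume) :=
      hcont.continuousOn.integrableOn_compact hK
    have h4 : IntegrableOn (Function.uncurry fun (x y : E n) => m.φ y * G x y)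
        (Cell n P ×ˢ Metric.closedBall (0 : E n) ε) (volume.prod volume) :=
      h3.mono_set (prod_mono_left (cell_subset_ccell n P))
    refine h4.of_forall_diff_eq_zero ((measurableSet_cell n P).prod MeasurableSet.univ) ?_
    rintro ⟨x, y⟩ ⟨hx, hy⟩
    have hy' : y ∉ Metric.closedBall (0 : E n) ε := by
      intro hy2
      exact hy ⟨hx.1, hy2⟩
    rw [Metric.mem_closedBall, dist_zero_right, not_le] at hy'
    simp only [Function.uncurry]
    rw [m.supp y hy'.le, zero_mul]
  rw [Iper_def, integral_integral_swap h1]
  refine integral_congr_ae (Filter.Eventually.of_forall fun y => ?_)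
  simp only
  rw [integral_const_mul]
  rfl

theorem J_adj {ε : ℝ} (m : Mollifier n ε) {P : ℝ} (hP : 0 < P) {f g : E n → ℝ}
    (hf : Continuous f) (hg : Continuous g) (hfp : Per P f) (hgp : Per P g) :
    Iper P (fun x => f x * m.J g x) = Iper P (fun x => m.J f x * g x) := by
  have e1 : (fun x => f x * m.J g x) = fun x => ∫ y, m.φ y * (f x * g (x - y)) := by
    funext x
    unfold Mollifier.J
    rw [← integral_const_mul]
    refine integral_congr_ae (Filter.Eventually.of_forall fun y => ?_)
    simp only
    ring
  have e2 : (fun x => m.J f x * g x) = fun x => ∫ y, m.φ y * (f (x - y) * g x) := by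
    funext x
    unfold Mollifier.J
    rw [← integral_mul_const]
    refine integral_congr_ae (Filter.Eventually.of_forall fun y => ?_)
    simp only
    ring
  rw [e1, e2, swap_int m (by fun_prop), swap_int m (by fun_prop)]
  -- substitution `y ↦ -y`
  rw [← integral_neg_eq_self (fun y => m.φ y * Iper P (fun x => f (x - y) * g x))]
  refine integral_congr_ae (Filter.Eventually.of_forall fun y => ?_)
  simp only
  rw [m.even]
  congr 1
  have hper : Per P (fun x => f x * g (x - y)) := by
    intro i x
    simp only
    rw [hfp i x]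
    congr 1
    have : x + P • ee i - y = (x - y) + P • ee i := by abel
    rw [this, hgp i]
  have h1 := Iper_translate hP (h := fun x => f x * g (x - y)) (by fun_prop) hper y
  rw [← h1]
  congr 1
  funext x
  simp only [sub_neg_eq_add, add_sub_cancel_right]

lemma J_continuous {ε : ℝ} (m : Mollifier n ε) {f : E n → ℝ} (hf : Continuous f) :
    Continuous (m.J f) := by
  have e1 : m.J f = fun x => ∫ y in Metric.closedBall (0 : E n) ε, m.φ y * f (x - y) := by
    funext x
    unfold Mollifier.J
    rw [setIntegral_eq_integral_of_forall_compl_eq_zero]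
    intro y hy
    rw [Metric.mem_closedBall, dist_zero_right, not_le] at hy
    rw [m.supp y hy.le, zero_mul]
  rw [e1]
  refine continuous_parametric_integral_of_continuous ?_ (isCompact_closedBall 0 ε)
  exact (m.smooth.continuous.comp continuous_snd).mul
    (hf.comp (continuous_fst.sub continuous_snd))

lemma J_sq_le {ε : ℝ} (m : Mollifier n ε) {f : E n → ℝ} (hf : Continuous f) (x : E n) :
    (m.J f x) ^ 2 ≤ m.J (fun y => (f y) ^ 2) x := by
  set c := m.J f x with hc
  have h0 : 0 ≤ ∫ y, m.φ y * (f (x - y) - c) ^ 2 :=
    integral_nonneg fun y => mul_nonneg (m.nonneg y) (sq_nonneg _)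
  have i1 := J_integrable m (f := fun y => (f y) ^ 2) (by fun_prop) x
  have i2 := J_integrable m hf x
  have i3 := phi_integrable m
  have e1 : ∫ y, m.φ y * (f (x - y) - c) ^ 2 =
      ∫ y, (m.φ y * (f (x - y)) ^ 2 - (2 * c) * (m.φ y * f (x - y)) + c ^ 2 * m.φ y) := by
    refine integral_congr_ae (Filter.Eventually.of_forall fun y => ?_)
    simp only
    ring
  have i12 : Integrable (fun y => m.φ y * (f (x - y)) ^ 2 - (2 * c) * (m.φ y * f (x - y))) :=
    i1.sub (i2.const_mul (2 * c))
  have i3' : Integrable (fun y => c ^ 2 * m.φ y) := i3.const_mul _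
  rw [e1, integral_add i12 i3', integral_sub i1 (i2.const_mul (2 * c)), integral_const_mul,
    integral_const_mul, m.int] at h0
  have h1 : ∫ y, m.φ y * f (x - y) = c := rfl
  rw [h1] at h0
  have h2 : m.J (fun y => (f y) ^ 2) x = ∫ y, m.φ y * (f (x - y)) ^ 2 := rfl
  rw [h2]
  nlinarith

theorem J_contr {ε : ℝ} (m : Mollifier n ε) {P : ℝ} (hP : 0 < P) {f : E n → ℝ}
    (hf : Continuous f) (hfp : Per P f) :
    Iper P (fun x => (m.J f x) ^ 2) ≤ Iper P (fun x => (f x) ^ 2) := by
  have hJ := J_continuous m hf
  have hf2 : Continuous (fun y => (f y) ^ 2) := by fun_prop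
  have hJ2 := J_continuous m hf2
  have h1 : Iper P (fun x => (m.J f x) ^ 2) ≤ Iper P (m.J (fun y => (f y) ^ 2)) :=
    Iper_mono (by fun_prop) hJ2 fun x => J_sq_le m hf x
  have hper : Per P (fun y => (f y) ^ 2) := fun i x => by
    simp only
    rw [hfp i x]
  have h2 := J_adj m hP (f := fun _ => (1 : ℝ)) (g := fun y => (f y) ^ 2) continuous_const hf2
    (fun _ _ => rfl) hper
  have h3 : (fun x => (1 : ℝ) * m.J (fun y => (f y) ^ 2) x) = m.J (fun y => (f y) ^ 2) := by
    funext x; rw [one_mul]
  have h4 : (fun x => m.J (fun _ => (1 : ℝ)) x * (f x) ^ 2) = fun x => (f x) ^ 2 := by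
    funext x; rw [J_one, one_mul]
  rw [h3, h4] at h2
  rw [← h2]
  exact h1

end Pool.Agent.GR
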