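import Pool.Agent.Helper35.GR.Defs2

/-!
# P3a : the period integral (MP_114a94_gt)
-/

set_option autoImplicit false

open scoped ContDiff Topology NNReal Pointwise
open Set Filter MeasureTheory

namespace Pool.Agent.GR

open Pool.Agent.Helper25.GrimReaper

variable {n : ℕ}

/-- The period cell. -/
def Cell (n : ℕ) (P : ℝ) : Set (E n) := {x : E n | ∀ i, x i ∈ Ico 0 P}

/-- The closed period cell. -/
def CCell (n : ℕ) (P : ℝ) : Set (E n) := {x : E n | ∀ i, x i ∈ Icc 0 P}

lemma Iper_def (P : ℝ) (h : E n → ℝ) : Iper P h = ∫ x in Cell n P, h x := rfl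

lemma cell_eq_pre (n : ℕ) (P : ℝ) :
    Cell n P = (WithLp.ofLp : E n → (Fin n → ℝ)) ⁻¹' (Set.pi univ (fun _ => Ico 0 P)) := by
  ext x; simp [Cell]

lemma measurableSet_cell (n : ℕ) (P : ℝ) : MeasurableSet (Cell n P) := by
  rw [cell_eq_pre]
  refine (MeasurableSet.univ_pi (fun _ => measurableSet_Ico)).preimage ?_
  exact (PiLp.volume_preserving_ofLp (Fin n)).measurable

lemma cell_subset_ccell (n : ℕ) (P : ℝ) : Cell n P ⊆ CCell n P :=
  fun _ hx i => ⟨(hx i).1, (hx i).2.le⟩

lemma isCompact_ccell (n : ℕ) (P : ℝ) : IsCompact (CCell n P) := by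
  have h : CCell n P = (EuclideanSpace.equiv (Fin n) ℝ).symm ''
      (Set.pi univ (fun _ => Icc 0 P)) := by
    ext x
    constructor
    · intro hx
      exact ⟨EuclideanSpace.equiv (Fin n) ℝ x, fun i _ => hx i, by simp⟩
    · rintro ⟨y, hy, rfl⟩ i
      exact hy i (mem_univ i)
  rw [h]
  exact (isCompact_univ_pi fun _ => isCompact_Icc).image
    (EuclideanSpace.equiv (Fin n) ℝ).symm.continuous

lemma volume_cell (n : ℕ) (P : ℝ) : volume (Cell n P) = ENNReal.ofReal P ^ n := by
  rw [cell_eq_pre, (PiLp.volume_preserving_ofLp (Fin n)).measure_preimage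
    (MeasurableSet.univ_pi (fun _ => measurableSet_Ico)).nullMeasurableSet, volume_pi_pi]
  simp

lemma volume_cell_lt_top (n : ℕ) (P : ℝ) : volume (Cell n P) < ⊤ := by
  rw [volume_cell]
  exact ENNReal.pow_lt_top ENNReal.ofReal_lt_top

lemma integrableOn_cell {P : ℝ} {f : E n → ℝ} (hf : Continuous f) :
    IntegrableOn f (Cell n P) := by
  exact (hf.continuousOn.integrableOn_compact (isCompact_ccell n P)).mono_set
    (cell_subset_ccell n P)

theorem Iper_mono {P : ℝ} {f g : E n → ℝ} (hf : Continuous f) (hg : Continuous g)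
    (h : ∀ x, f x ≤ g x) : Iper P f ≤ Iper P g :=
  setIntegral_mono (integrableOn_cell hf) (integrableOn_cell hg) h

theorem Iper_add {P : ℝ} {f g : E n → ℝ} (hf : Continuous f) (hg : Continuous g) :
    Iper P (fun x => f x + g x) = Iper P f + Iper P g :=
  integral_add (integrableOn_cell hf) (integrableOn_cell hg)

theorem Iper_sub {P : ℝ} {f g : E n → ℝ} (hf : Continuous f) (hg : Continuous g) :
    Iper P (fun x => f x - g x) = Iper P f - Iper P g :=
  integral_sub (integrableOn_cell hf) (integrableOn_cell hg)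

theorem Iper_const_mul {P : ℝ} (c : ℝ) (f : E n → ℝ) :
    Iper P (fun x => c * f x) = c * Iper P f :=
  integral_const_mul _ _

theorem Iper_sum {P : ℝ} {ι : Type*} (s : Finset ι) (f : ι → E n → ℝ)
    (hf : ∀ a ∈ s, Continuous (f a)) :
    Iper P (fun x => ∑ a ∈ s, f a x) = ∑ a ∈ s, Iper P (f a) :=
  integral_finset_sum s fun a ha => integrableOn_cell (hf a ha)

theorem Iper_nonneg {P : ℝ} {f : E n → ℝ} (h : ∀ x, 0 ≤ f x) : 0 ≤ Iper P f :=
  setIntegral_nonneg (measurableSet_cell n P) fun x _ => h x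

/-- `|Iper h| ≤ Pⁿ sup |h|`. -/
theorem Iper_abs_le {P : ℝ} (hP : 0 < P) {f : E n → ℝ} {B : ℝ} (h : ∀ x, |f x| ≤ B) :
    |Iper P f| ≤ P ^ n * B := by
  have h1 := norm_setIntegral_le_of_norm_le_const (μ := volume) (f := f) (C := B)
    (volume_cell_lt_top n P) (fun x _ => by rw [Real.norm_eq_abs]; exact h x)
  rw [Real.norm_eq_abs] at h1
  have h2 : (volume : Measure (E n)).real (Cell n P) = P ^ n := by
    rw [Measure.real, volume_cell, ENNReal.toReal_pow, ENNReal.toReal_ofReal hP.le]
  rw [h2] at h1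
  rw [Iper_def]
  linarith

/-- The lattice basis `P eᵢ`. -/
noncomputable def latBasis (n : ℕ) {P : ℝ} (hP : 0 < P) : Module.Basis (Fin n) ℝ (E n) :=
  (EuclideanSpace.basisFun (Fin n) ℝ).toBasis.unitsSMul (fun _ => Units.mk0 P hP.ne')

lemma latBasis_apply {P : ℝ} (hP : 0 < P) (i : Fin n) : latBasis n hP i = P • ee i := by
  unfold latBasis
  rw [Module.Basis.unitsSMul_apply]
  simp [Units.smul_def]

lemma fundamentalDomain_latBasis {P : ℝ} (hP : 0 < P) :
    ZSpan.fundamentalDomain (latBasis n hP) = Cell n P := by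
  ext x
  rw [ZSpan.mem_fundamentalDomain]
  have h : ∀ i, (latBasis n hP).repr x i = P⁻¹ * x i := by
    intro i
    unfold latBasis
    rw [Module.Basis.repr_unitsSMul]
    simp [Units.smul_def]
  simp only [h, Cell, mem_setOf_eq, mem_Ico]
  refine forall_congr' fun i => ?_
  rw [inv_mul_lt_iff₀ hP, mul_one, mul_nonneg_iff_of_pos_left (inv_pos.2 hP)]

/-- periodicity with respect to the whole lattice -/
lemma per_lattice {P : ℝ} (hP : 0 < P) {h : E n → ℝ} (hp : Per P h)
    (g : (Submodule.span ℤ (Set.range (latBasis n hP))).toAddSubgroup) (x : E n) :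
    h (g +ᵥ x) = h x := by
  have key : ∀ y ∈ Submodule.span ℤ (Set.range (latBasis n hP)), ∀ x, h (y + x) = h x := by
    intro y hy
    induction hy using Submodule.span_induction with
    | mem y hy =>
      obtain ⟨i, rfl⟩ := hy
      intro x
      rw [latBasis_apply, add_comm]
      exact hp i x
    | zero => intro x; rw [zero_add]
    | add y z _ _ hy hz => intro x; rw [add_assoc, hy, hz]
    | smul a y _ hy =>
      have hnat : ∀ (m : ℕ) x, h ((m : ℤ) • y + x) = h x := by
        intro m
        induction m with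
        | zero => intro x; simp
        | succ m ih =>
          intro x
          rw [Nat.cast_succ, add_smul, one_smul, add_assoc, ih, hy]
      intro x
      rcases Int.eq_nat_or_neg a with ⟨m, rfl | rfl⟩
      · exact hnat m x
      · have := hnat m (-(m : ℤ) • y + x)
        rw [← add_assoc, neg_smul, add_neg_cancel, zero_add] at this
        rw [neg_smul]
        exact this.symm
  exact key g g.2 x

theorem Iper_translate {P : ℝ} (hP : 0 < P) {h : E n → ℝ} (_hc : Continuous h) (hp : Per P h)
    (a : E n) : Iper P (fun x => h (x + a)) = Iper P h := by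
  have hfd := ZSpan.isAddFundamentalDomain' (latBasis n hP) (volume : Measure (E n))
  have : VAddCommClass (E n) (Submodule.span ℤ (Set.range (latBasis n hP))).toAddSubgroup (E n) :=
    ⟨fun u g x => by
      rw [AddSubgroup.vadd_def, AddSubgroup.vadd_def]
      simp only [vadd_eq_add]
      abel⟩
  haveI : Countable (Submodule.span ℤ (Set.range (latBasis n hP))).toAddSubgroup :=
    inferInstanceAs (Countable (Submodule.span ℤ (Set.range (latBasis n hP))))
  have hfd2 := hfd.vadd_of_comm a
  have h1 := hfd.setIntegral_eq hfd2 (f := h) (fun g x => per_lattice hP hp g x)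
  rw [fundamentalDomain_latBasis] at h1
  rw [Iper_def, Iper_def, h1]
  have h2 : (a +ᵥ Cell n P : Set (E n)) = (fun x => x + a) '' (Cell n P) := by
    ext x
    simp only [Set.mem_vadd_set, vadd_eq_add, mem_image]
    constructor
    · rintro ⟨y, hy, rfl⟩; exact ⟨y, hy, add_comm _ _⟩
    · rintro ⟨y, hy, rfl⟩; exact ⟨y, hy, add_comm _ _⟩
  rw [h2]
  have h3 := (measurePreserving_add_right (volume : Measure (E n)) a).setIntegral_image_emb
    (MeasurableEquiv.addRight a).measurableEmbedding h (Cell n P)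
  exact h3.symm

theorem Iper_deriv {P : ℝ} {T : ℝ} {h h' : ℝ → E n → ℝ}
    (hc : ContinuousOn (fun p : ℝ × E n => h p.1 p.2) (Icc 0 T ×ˢ univ))
    (hc' : ContinuousOn (fun p : ℝ × E n => h' p.1 p.2) (Icc 0 T ×ˢ univ))
    (hd : ∀ t ∈ Icc 0 T, ∀ x, HasDerivWithinAt (fun s => h s x) (h' t x) (Icc 0 T) t) :
    ∀ t ∈ Icc 0 T, HasDerivWithinAt (fun s => Iper P (h s)) (Iper P (h' t)) (Icc 0 T) t := by
  intro t ht
  have hcs : ∀ s ∈ Icc 0 T, Continuous (h s) := by
    intro s hs
    have h1 : ContinuousOn (fun x : E n => ((s, x) : ℝ × E n)) univ := by fun_prop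
    have := hc.comp h1 (fun x _ => ⟨hs, mem_univ _⟩)
    exact continuousOn_univ.1 this
  -- a bound for `h'`
  have hK : IsCompact (Icc 0 T ×ˢ CCell n P) := isCompact_Icc.prod (isCompact_ccell n P)
  obtain ⟨C, hC⟩ := hK.exists_bound_of_continuousOn (hc'.mono (prod_mono_right (subset_univ _)))
  rw [hasDerivWithinAt_iff_tendsto_slope]
  have hev : ∀ᶠ s in 𝓝[Icc 0 T \ {t}] t, s ∈ Icc 0 T \ {t} := self_mem_nhdsWithin
  have hslope : ∀ s ∈ Icc 0 T \ {t}, slope (fun s => Iper P (h s)) t s =
      ∫ x in Cell n P, slope (fun r => h r x) t s := by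
    intro s hs
    simp only [slope, vsub_eq_sub, smul_eq_mul]
    rw [integral_const_mul, integral_sub (integrableOn_cell (hcs s hs.1))
      (integrableOn_cell (hcs t ht))]
    rfl
  refine Tendsto.congr' (hev.mono fun s hs => (hslope s hs).symm) ?_
  refine tendsto_integral_filter_of_dominated_convergence (fun _ => C) ?_ ?_ ?_ ?_
  · filter_upwards [hev] with s hs
    have : Continuous (fun x => slope (fun r => h r x) t s) := by
      simp only [slope, vsub_eq_sub, smul_eq_mul]
      exact continuous_const.mul ((hcs s hs.1).sub (hcs t ht))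
    exact this.aestronglyMeasurable
  · filter_upwards [hev] with s hs
    refine (ae_restrict_iff' (measurableSet_cell n P)).2 (Filter.Eventually.of_forall fun x hx => ?_)
    have h1 := Convex.norm_image_sub_le_of_norm_hasDerivWithin_le (f := fun r => h r x)
      (f' := fun r => h' r x) (s := Icc 0 T) (C := C) (x := t) (y := s)
      (fun r hr => hd r hr x) (fun r hr => hC (r, x) ⟨hr, cell_subset_ccell n P hx⟩)
      (convex_Icc 0 T) ht hs.1
    rw [slope_def_module, norm_smul, norm_inv]
    have h2 : 0 < ‖s - t‖ := norm_pos_iff.2 (sub_ne_zero.2 hs.2)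
    rw [inv_mul_le_iff₀ h2, mul_comm]
    exact h1
  · haveI : IsFiniteMeasure (volume.restrict (Cell n P)) :=
      ⟨by rw [Measure.restrict_apply_univ]; exact volume_cell_lt_top n P⟩
    exact integrable_const C
  · refine Filter.Eventually.of_forall fun x => ?_
    exact hasDerivWithinAt_iff_tendsto_slope.1 (hd t ht x)

theorem Iper_pd {P : ℝ} (hP : 0 < P) {h : E n → ℝ} (hc : ContDiff ℝ 1 h) (hp : Per P h)
    (i : Fin n) : Iper P (pd i h) = 0 := by
  have hcf : Continuous (fderiv ℝ h) := hc.continuous_fderiv (by norm_num)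
  have hpd : Continuous (pd i h) := by
    unfold pd
    exact hcf.clm_apply continuous_const
  have hmap : Continuous (fun p : ℝ × E n => p.2 + p.1 • ee i) := by fun_prop
  have h1 := Iper_deriv (P := P) (T := 1) (h := fun s x => h (x + s • ee i))
    (h' := fun s x => pd i h (x + s • ee i))
    (hc.continuous.comp hmap).continuousOn (hpd.comp hmap).continuousOn (by
      intro t _ x
      have h2 : HasFDerivAt h (fderiv ℝ h (x + t • ee i)) (x + t • ee i) :=
        ((hc.differentiable (by norm_num)) _).hasFDerivAt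
      have h3 : HasDerivAt (fun s : ℝ => x + s • ee i) (ee i) t := by
        have := ((hasDerivAt_id t).smul_const (ee i)).const_add x
        simpa using this
      exact (h2.comp_hasDerivAt t h3).hasDerivWithinAt) 0 ⟨le_refl _, zero_le_one⟩
  have h4 : (fun s : ℝ => Iper P (fun x => h (x + s • ee i))) = fun _ => Iper P h := by
    funext s
    exact Iper_translate hP hc.continuous hp (s • ee i)
  rw [h4] at h1
  have h6 : Iper P (fun x => pd i h (x + (0 : ℝ) • ee i)) = 0 :=
    (uniqueDiffOn_Icc_zero_one.uniqueDiffWithinAt ⟨le_refl _, zero_le_one⟩).eq_deriv _ h1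
      (hasDerivWithinAt_const (0 : ℝ) (Icc 0 1) (Iper P h))
  simpa using h6

end Pool.Agent.GR
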